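import Mathlib
import Pool.Agent.PatDepth.Chain

namespace Pool.Agent.H344R3.PD

open Pool.Agent.PatDepth

variable {A : Type}

/-- the number of occurrences of the variable `x` -/
def occ (x : ℕ) (q : List (ℕ ⊕ A)) : ℕ := (q.filterMap Sum.getLeft?).count x

/-- the set of the variables -/
def vars (q : List (ℕ ⊕ A)) : Finset ℕ := (q.filterMap Sum.getLeft?).toFinset

lemma card_vars (q : List (ℕ ⊕ A)) : (vars q).card = nvar q := rfl

lemma mem_vars' {q : List (ℕ ⊕ A)} {x : ℕ} : x ∈ vars q ↔ Sum.inl x ∈ q := mem_vars

lemma occ_pos {q : List (ℕ ⊕ A)} {x : ℕ} (h : x ∈ vars q) : 0 < occ x q := by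
  rw [occ, List.count_pos_iff]
  exact List.mem_toFinset.mp h

lemma occ_ne {q : List (ℕ ⊕ A)} {x : ℕ} (h : occ x q ≠ 0) : x ∈ vars q := by
  rw [vars, List.mem_toFinset, ← List.count_pos_iff]
  exact Nat.pos_of_ne_zero h

lemma length_subst {τ : ℕ → List A} (hτ : ∀ x, τ x ≠ []) (V : Finset ℕ) (q : List (ℕ ⊕ A)) :
    vars q ⊆ V → (subst τ q).length = q.length + ∑ x ∈ V, occ x q * ((τ x).length - 1) := by
  induction q with
  | nil => intro _; simp [occ, subst]
  | cons s q ih =>
    intro h
    cases s with
    | inr a =>
      have h1 : ∀ x, occ x (Sum.inr a :: q) = occ x q := by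
        intro x; rw [occ, List.filterMap_cons_none (by rfl)]; rfl
      have h2 : vars (Sum.inr a :: q) = vars q := by
        rw [vars, List.filterMap_cons_none (by rfl)]; rfl
      rw [h2] at h
      rw [subst_cons, List.length_append, ih h, List.length_cons]
      simp only [h1, Sum.elim_inr, List.length_singleton]
      omega
    | inl y =>
      have h1 : ∀ x, occ x (Sum.inl y :: q) = occ x q + if x = y then 1 else 0 := by
        intro x
        rw [occ, List.filterMap_cons_some (b := y) (by rfl), List.count_cons]
        by_cases hxy : x = y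
        · subst hxy; simp [occ]
        · have : ¬ y = x := fun h => hxy h.symm
          simp [occ, hxy, this]
      have h2 : vars (Sum.inl y :: q) = insert y (vars q) := by
        rw [vars, List.filterMap_cons_some (b := y) (by rfl), List.toFinset_cons]; rfl
      rw [h2] at h
      have hy : y ∈ V := h (Finset.mem_insert_self _ _)
      rw [subst_cons, List.length_append, ih ((Finset.subset_insert _ _).trans h), List.length_cons]
      simp only [h1, Sum.elim_inl, add_mul, Finset.sum_add_distrib, ite_mul, one_mul, zero_mul,
        Finset.sum_ite_eq', hy, if_true]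
      have := List.length_pos_iff.mpr (hτ y)
      omega

lemma flat_inj {τ τ' : ℕ → List A} (l : List ℕ) : ∀ r r' : List A,
    (∀ x ∈ l, (τ x).length = (τ' x).length) → l.flatMap τ ++ r = l.flatMap τ' ++ r' →
      ∀ x ∈ l, τ x = τ' x := by
  induction l with
  | nil => intro _ _ _ _ x hx; simp at hx
  | cons y l ih =>
    intro r r' h1 h2
    rw [List.flatMap_cons, List.flatMap_cons, List.append_assoc, List.append_assoc] at h2
    obtain ⟨h3, h4⟩ := List.append_inj h2 (h1 y List.mem_cons_self)
    intro x hx
    rcases List.mem_cons.mp hx with rfl | hx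
    · exact h3
    · exact ih r r' (fun z hz => h1 z (List.mem_cons_of_mem _ hz)) h4 x hx

lemma length_flat (τ : ℕ → List A) (l : List ℕ) :
    (l.flatMap τ).length = (l.map fun x => (τ x).length).sum := by
  rw [List.length_flatMap]

/-- the counting inequality -/
theorem count_le [Fintype A] [Nonempty A] {p q : List (ℕ ⊕ A)} {k : ℕ} (h : Lang p ⊆ Lang q)
    (hk : p.length = q.length + k) :
    Fintype.card A ^ nvar p ≤
      (nvar q + k - 1).choose k * Fintype.card A ^ (nvar q + k) := by
  classical
  obtain ⟨a0⟩ := ‹Nonempty A›
  -- the words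
  let ext : (vars p → A) → ℕ → A := fun f x => if hx : x ∈ vars p then f ⟨x, hx⟩ else a0
  have hmem : ∀ f : vars p → A, ∃ τ : ℕ → List A, (∀ x, τ x ≠ []) ∧
      lets (ext f) p = subst τ q := fun f => h (lets_mem (ext f) p)
  choose τ hτ hw using hmem
  have hlen : ∀ f, ∑ x ∈ vars q, occ x q * ((τ f x).length - 1) = k := by
    intro f
    have h1 := congrArg List.length (hw f)
    rw [lets_length, length_subst (hτ f) (vars q) q subset_rfl] at h1
    omega
  -- the lengths
  let e : (vars p → A) → (ℕ →₀ ℕ) := fun f =>
    Finsupp.onFinset (vars q) (fun x => occ x q * ((τ f x).length - 1))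
      (fun x hx => occ_ne (fun h0 => hx (by rw [h0, zero_mul])))
  have he : ∀ f, e f ∈ (vars q).finsuppAntidiag k := by
    intro f
    rw [Finset.mem_finsuppAntidiag]
    refine ⟨?_, Finsupp.support_onFinset_subset⟩
    exact hlen f
  let flat : (vars p → A) → List A := fun f => (vars q).toList.flatMap (τ f)
  have hflat : ∀ f, (flat f).length ≤ nvar q + k := by
    intro f
    have h1 : (flat f).length = ∑ x ∈ vars q, (τ f x).length := by
      show ((vars q).toList.flatMap (τ f)).length = _
      rw [length_flat]
      exact Finset.sum_map_toList (vars q) _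
    have h2 : ∑ x ∈ vars q, (τ f x).length ≤
        ∑ x ∈ vars q, (1 + occ x q * ((τ f x).length - 1)) := by
      apply Finset.sum_le_sum
      intro x hx
      have h3 := occ_pos hx
      have h4 := List.length_pos_iff.mpr (hτ f x)
      have h5 : (τ f x).length - 1 ≤ occ x q * ((τ f x).length - 1) :=
        Nat.le_mul_of_pos_left _ h3
      omega
    have h6 : ∑ x ∈ vars q, (1 + occ x q * ((τ f x).length - 1)) = nvar q + k := by
      rw [Finset.sum_add_distrib, hlen f, Finset.sum_const, smul_eq_mul, mul_one, card_vars]
    omega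
  let pad : (vars p → A) → List.Vector A (nvar q + k) := fun f =>
    ⟨flat f ++ List.replicate (nvar q + k - (flat f).length) a0, by
      rw [List.length_append, List.length_replicate]
      have := hflat f
      omega⟩
  let code : (vars p → A) → (ℕ →₀ ℕ) × List.Vector A (nvar q + k) := fun f => (e f, pad f)
  have hinj : Function.Injective code := by
    intro f f' hff
    have h1 : e f = e f' := (Prod.ext_iff.mp hff).1
    have h2 : pad f = pad f' := (Prod.ext_iff.mp hff).2
    have h3 : ∀ x ∈ vars q, (τ f x).length = (τ f' x).length := by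
      intro x hx
      have h4 : occ x q * ((τ f x).length - 1) = occ x q * ((τ f' x).length - 1) :=
        DFunLike.congr_fun h1 x
      have h5 := Nat.eq_of_mul_eq_mul_left (occ_pos hx) h4
      have h6 := List.length_pos_iff.mpr (hτ f x)
      have h7 := List.length_pos_iff.mpr (hτ f' x)
      omega
    have h8 : ∀ x ∈ vars q, τ f x = τ f' x := by
      intro x hx
      refine flat_inj (vars q).toList _ _ (fun z hz => h3 z (Finset.mem_toList.mp hz))
        (congrArg Subtype.val h2) x (Finset.mem_toList.mpr hx)
    have h9 : lets (ext f) p = lets (ext f') p := by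
      rw [hw, hw]
      exact subst_congr fun x hx => h8 x (mem_vars'.mpr hx)
    funext ⟨x, hx⟩
    have h10 : ∀ g : vars p → A, Sum.elim (ext g) id (Sum.inl x : ℕ ⊕ A) = g ⟨x, hx⟩ := by
      intro g
      show ext g x = _
      simp only [ext, hx, dif_pos]
    have h11 := List.map_inj_left.mp h9 _ (mem_vars'.mp hx)
    rw [h10, h10] at h11
    exact h11
  have hcard : Fintype.card (vars p → A) ≤
      (((vars q).finsuppAntidiag k) ×ˢ (Finset.univ : Finset (List.Vector A (nvar q + k)))).card := by
    rw [← Finset.card_univ]
    apply Finset.card_le_card_of_injOn code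
    · intro f _
      rw [Finset.mem_coe, Finset.mem_product]
      exact ⟨he f, Finset.mem_univ _⟩
    · exact hinj.injOn
  rw [Finset.card_product, Finset.card_univ, card_vector, Fintype.card_fun, Fintype.card_coe,
    Finset.card_finsuppAntidiag_nat_eq_choose, card_vars, card_vars] at hcard
  exact hcard

end Pool.Agent.H344R3.PD
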