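import Mathlib
import Pool.Agent.PatDepth.Chain

namespace Pool.Agent.H344R3.PD

open Pool.Agent.PatDepth

variable {A : Type}

/-- the list of the constants of a pattern -/
def consts (q : List (ℕ ⊕ A)) : List A := q.filterMap Sum.getRight?

/-- positions that are constants or variables already seen -/
def later (S : Finset ℕ) : List (ℕ ⊕ A) → ℕ
  | [] => 0
  | Sum.inr _ :: p => later S p + 1
  | Sum.inl x :: p => if x ∈ S then later S p + 1 else later (insert x S) p

lemma vars_cons_inl (x : ℕ) (p : List (ℕ ⊕ A)) :
    ((Sum.inl x :: p).filterMap Sum.getLeft?).toFinset =
      insert x (p.filterMap Sum.getLeft?).toFinset := by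
  rw [List.filterMap_cons_some (b := x) (by rfl), List.toFinset_cons]

lemma vars_cons_inr (a : A) (p : List (ℕ ⊕ A)) :
    ((Sum.inr a :: p).filterMap Sum.getLeft?).toFinset =
      (p.filterMap Sum.getLeft?).toFinset := by
  rw [List.filterMap_cons_none (by rfl)]

lemma later_add (p : List (ℕ ⊕ A)) : ∀ S : Finset ℕ,
    later S p + ((p.filterMap Sum.getLeft?).toFinset \ S).card = p.length := by
  induction p with
  | nil => intro S; simp [later]
  | cons s p ih =>
    intro S
    cases s with
    | inr a =>
      rw [vars_cons_inr, List.length_cons]
      show later S p + 1 + _ = _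
      have := ih S
      omega
    | inl x =>
      rw [vars_cons_inl, List.length_cons]
      by_cases hx : x ∈ S
      · have h1 : later S (Sum.inl x :: p) = later S p + 1 := by
          simp [later, hx]
        rw [h1, Finset.insert_sdiff_of_mem _ hx]
        have := ih S
        omega
      · have h1 : later S (Sum.inl x :: p) = later (insert x S) p := by
          simp [later, hx]
        have h2 := ih (insert x S)
        have h3 : insert x (p.filterMap Sum.getLeft?).toFinset \ S =
            insert x ((p.filterMap Sum.getLeft?).toFinset \ insert x S) := by
          ext y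
          simp only [Finset.mem_sdiff, Finset.mem_insert]
          constructor
          · rintro ⟨h4, h5⟩
            by_cases hy : y = x
            · exact Or.inl hy
            · right
              exact ⟨h4.resolve_left hy, fun h => h.elim hy h5⟩
          · rintro (rfl | ⟨h4, h5⟩)
            · exact ⟨Or.inl rfl, hx⟩
            · exact ⟨Or.inr h4, fun h => h5 (Or.inr h)⟩
        have h4 : x ∉ (p.filterMap Sum.getLeft?).toFinset \ insert x S := by
          simp
        rw [h1, h3, Finset.card_insert_of_notMem h4]
        omega

lemma later_empty (p : List (ℕ ⊕ A)) : later ∅ p + nvar p = p.length := by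
  have := later_add p ∅
  rwa [Finset.sdiff_empty] at this

/-- the letters can be chosen one by one so that a given word embeds only slowly -/
lemma greedy [Nontrivial A] (p : List (ℕ ⊕ A)) : ∀ (S : Finset ℕ) (f0 : ℕ → A) (cs : List A),
    ∃ f : ℕ → A, (∀ x ∈ S, f x = f0 x) ∧ (cs.Sublist (lets f p) → cs.length ≤ later S p) := by
  classical
  induction p with
  | nil =>
    intro S f0 cs
    refine ⟨f0, fun _ _ => rfl, fun h => ?_⟩
    have : cs = [] := by simpa [lets] using h
    rw [this]; simp
  | cons s p ih =>
    intro S f0 cs
    cases cs with
    | nil => exact ⟨f0, fun _ _ => rfl, fun _ => by simp⟩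
    | cons c cs =>
      -- the forced positions
      have forced : ∀ a : A, ∃ f : ℕ → A, (∀ x ∈ S, f x = f0 x) ∧
          ((c :: cs).Sublist (a :: lets f p) → (c :: cs).length ≤ later S p + 1) := by
        intro a
        by_cases hac : c = a
        · subst hac
          obtain ⟨f, h1, h2⟩ := ih S f0 cs
          refine ⟨f, h1, fun h => ?_⟩
          have := h2 (List.cons_sublist_cons.mp h)
          rw [List.length_cons]; omega
        · obtain ⟨f, h1, h2⟩ := ih S f0 (c :: cs)
          refine ⟨f, h1, fun h => ?_⟩
          have h3 : (c :: cs).Sublist (lets f p) := by
            rcases List.sublist_cons_iff.mp h with h4 | ⟨r, h4, _⟩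
            · exact h4
            · exact absurd (List.cons.inj h4).1 hac
          have := h2 h3
          omega
      cases s with
      | inr a =>
        obtain ⟨f, h1, h2⟩ := forced a
        refine ⟨f, h1, fun h => ?_⟩
        exact h2 h
      | inl x =>
        by_cases hx : x ∈ S
        · obtain ⟨f, h1, h2⟩ := forced (f0 x)
          refine ⟨f, h1, fun h => ?_⟩
          have h3 : later S (Sum.inl x :: p) = later S p + 1 := by simp [later, hx]
          rw [h3]
          apply h2
          rw [← h1 x hx]
          exact h
        · obtain ⟨a, ha⟩ := exists_ne c
          obtain ⟨f, h1, h2⟩ := ih (insert x S) (Function.update f0 x a) (c :: cs)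
          refine ⟨f, fun y hy => ?_, fun h => ?_⟩
          · rw [h1 y (Finset.mem_insert_of_mem hy), Function.update_of_ne]
            rintro rfl
            exact hx hy
          · have h3 : later S (Sum.inl x :: p) = later (insert x S) p := by simp [later, hx]
            rw [h3]
            apply h2
            have h4 : f x = a := by
              rw [h1 x (Finset.mem_insert_self _ _), Function.update_self]
            have h5 : (c :: cs).Sublist (f x :: lets f p) := h
            rw [h4] at h5
            rcases List.sublist_cons_iff.mp h5 with h6 | ⟨r, h6, _⟩
            · exact h6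
            · exact absurd (List.cons.inj h6).1.symm ha

lemma consts_sublist (τ : ℕ → List A) (q : List (ℕ ⊕ A)) :
    (consts q).Sublist (subst τ q) := by
  induction q with
  | nil => simp [consts]
  | cons s q ih =>
    rw [subst_cons]
    cases s with
    | inl x =>
      have : consts (Sum.inl x :: q) = consts q := by
        rw [consts, List.filterMap_cons_none (by rfl)]; rfl
      rw [this]
      exact ih.trans (List.sublist_append_right _ _)
    | inr a =>
      have : consts (Sum.inr a :: q) = a :: consts q := by
        rw [consts, List.filterMap_cons_some (b := a) (by rfl)]; rfl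
      rw [this]
      exact List.cons_sublist_cons.mpr ih

/-- the constants of `q` -/
theorem consts_le [Nontrivial A] {p q : List (ℕ ⊕ A)} (h : Lang p ⊆ Lang q) :
    (consts q).length + nvar p ≤ p.length := by
  obtain ⟨a, _, _⟩ := exists_pair_ne A
  obtain ⟨f, _, h2⟩ := greedy p ∅ (fun _ => a) (consts q)
  obtain ⟨τ, _, hw⟩ := h (lets_mem f p)
  have h3 := h2 (by rw [hw]; exact consts_sublist τ q)
  have h4 := later_empty p
  omega

lemma length_split (q : List (ℕ ⊕ A)) :
    (consts q).length + (q.filterMap Sum.getLeft?).length = q.length := by
  induction q with
  | nil => simp [consts]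
  | cons s q ih =>
    cases s with
    | inl x =>
      have : consts (Sum.inl x :: q) = consts q := by
        rw [consts, List.filterMap_cons_none (by rfl)]; rfl
      rw [this, List.filterMap_cons_some (b := x) (by rfl), List.length_cons, List.length_cons]
      omega
    | inr a =>
      have : consts (Sum.inr a :: q) = a :: consts q := by
        rw [consts, List.filterMap_cons_some (b := a) (by rfl)]; rfl
      rw [this, List.filterMap_cons_none (by rfl), List.length_cons, List.length_cons]
      omega

end Pool.Agent.H344R3.PD
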