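import Mathlib
import Pool.Agent.H344R3.PD.Greedy
import Pool.Agent.H344R3.PD.Count

namespace Pool.Agent.H344R3.PD

open Pool.Agent.PatDepth

/-! ### numbers -/

lemma choose_step {N k S : ℕ} (h : N.choose k < S ^ k) (hN : N + 1 ≤ (k + 1) * S) :
    (N + 1).choose (k + 1) < S ^ (k + 1) := by
  have h1 := Nat.add_one_mul_choose_eq N k
  have h2 : (N + 1).choose (k + 1) * (k + 1) < S ^ (k + 1) * (k + 1) := by
    rw [← h1]
    calc (N + 1) * N.choose k < (N + 1) * S ^ k := Nat.mul_lt_mul_of_pos_left h (Nat.succ_pos _)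
      _ ≤ ((k + 1) * S) * S ^ k := Nat.mul_le_mul_right _ hN
      _ = S ^ (k + 1) * (k + 1) := by ring
  exact Nat.lt_of_mul_lt_mul_right h2

/-- few variables -/
lemma num_few {t S : ℕ} (hS : 2 ≤ S) (h : t * (t + 1) < 2 * S ^ 2) (k : ℕ) (hk : 2 ≤ k) :
    (t + k - 1).choose k < S ^ k := by
  have ht : t + 1 ≤ 2 * S := by
    by_contra hcon
    push Not at hcon
    nlinarith
  induction k, hk using Nat.le_induction with
  | base =>
    have h1 : t + 2 - 1 = t + 1 := by omega
    rw [h1, Nat.choose_two_right, Nat.add_sub_cancel, mul_comm (t + 1)]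
    apply Nat.div_lt_of_lt_mul
    exact h
  | succ k hk ih =>
    have h1 : t + (k + 1) - 1 = (t + k - 1) + 1 := by omega
    rw [h1]
    apply choose_step ih
    have h2 : t + k - 1 + 1 = t + k := by omega
    rw [h2]
    nlinarith

/-- short patterns -/
lemma num_short {n S : ℕ} (hS : 2 ≤ S) (h : (n - 3) * (n - 4) < 2 * S ^ 2) (k t : ℕ)
    (hk : 2 ≤ k) (ht : t + k + k ≤ n) : (t + k - 1).choose k < S ^ k := by
  have h0 : ∀ k, 2 ≤ k → (n - 3).choose k < S ^ k := by
    intro k hk
    have hn : n - 3 ≤ 2 * S := by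
      by_contra hcon
      push Not at hcon
      have h1 : 2 * S ≤ n - 4 := by omega
      have h2 : 2 * S * (2 * S) ≤ (n - 3) * (n - 4) := Nat.mul_le_mul (by omega) h1
      nlinarith
    induction k, hk using Nat.le_induction with
    | base =>
      rw [Nat.choose_two_right, Nat.sub_sub]
      apply Nat.div_lt_of_lt_mul
      exact h
    | succ k hk ih =>
      rcases Nat.eq_zero_or_pos (n - 3) with h3 | h3
      · rw [h3, Nat.choose_zero_succ]
        positivity
      · obtain ⟨N, hN⟩ : ∃ N, n - 3 = N + 1 := ⟨n - 3 - 1, by omega⟩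
        rw [hN] at ih hn ⊢
        apply choose_step (lt_of_le_of_lt (Nat.choose_le_choose k (Nat.le_succ N)) ih)
        nlinarith
  exact lt_of_le_of_lt (Nat.choose_le_choose k (by omega)) (h0 k hk)

/-- many extra letters -/
lemma num_long {t k : ℕ} (hk : 4 * t ≤ k) (hk0 : 0 < k) : (t + k - 1).choose k < 2 ^ k := by
  rcases Nat.eq_zero_or_pos t with rfl | ht
  · rw [Nat.choose_eq_zero_of_lt (by omega)]
    positivity
  · by_contra hcon
    push Not at hcon
    have h1 : (t + k - 1).choose k * 4 ^ k ≤ 5 ^ (t + k - 1) := by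
      have h2 := add_pow (4 : ℕ) 1 (t + k - 1)
      have h3 : (4 : ℕ) + 1 = 5 := by norm_num
      rw [h3] at h2
      rw [h2]
      have h4 : (t + k - 1).choose k * 4 ^ k =
          4 ^ k * 1 ^ (t + k - 1 - k) * (t + k - 1).choose k := by
        rw [one_pow]; ring
      rw [h4]
      exact Finset.single_le_sum
        (f := fun m => 4 ^ m * 1 ^ (t + k - 1 - m) * (t + k - 1).choose m)
        (fun _ _ => Nat.zero_le _) (Finset.mem_range.mpr (by omega))
    have h5 : 8 ^ k ≤ 5 ^ (t + k - 1) := by
      calc 8 ^ k = 2 ^ k * 4 ^ k := by rw [← mul_pow]; norm_num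
        _ ≤ (t + k - 1).choose k * 4 ^ k := Nat.mul_le_mul_right _ hcon
        _ ≤ _ := h1
    have h6 : (8 ^ k) ^ 4 ≤ (5 ^ (t + k - 1)) ^ 4 := Nat.pow_le_pow_left h5 4
    have h7 : (5 ^ (t + k - 1)) ^ 4 < 5 ^ (5 * k) := by
      rw [← pow_mul]
      apply Nat.pow_lt_pow_right (by norm_num)
      omega
    have h8 : (8 ^ k) ^ 4 = 4096 ^ k := by
      rw [← pow_mul, mul_comm, pow_mul]; norm_num
    have h9 : 5 ^ (5 * k) = 3125 ^ k := by rw [pow_mul]; norm_num
    rw [h8] at h6
    rw [h9] at h7
    have h10 : 3125 ^ k < 4096 ^ k := Nat.pow_lt_pow_left (by norm_num) (by omega)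
    omega

/-! ### the laws -/

variable {A : Type}

lemma ne_length [Nontrivial A] {p q : List (ℕ ⊕ A)} (h : Lang p ⊆ Lang q) :
    p.length = q.length + (p.length - q.length) := by
  have := length_le_of_subset h
  omega

/-- the counting criterion with a weight `a` -/
theorem law_count [Fintype A] [Nontrivial A] {p q : List (ℕ ⊕ A)} {a k : ℕ}
    (h : Lang p ⊂ Lang q) (ha : 1 ≤ a) (hk : p.length = q.length + k)
    (hc : 2 ≤ k → (nvar q + k - 1).choose k < (Fintype.card A ^ a) ^ k) :
    (a + 1) * q.length + nvar p < (a + 1) * p.length + nvar q := by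
  rcases Nat.lt_or_ge k 2 with h1 | h1
  · have h2 := partOne h (by omega)
    rw [hk] at h2 ⊢
    nlinarith
  · have h2 := count_le h.subset hk
    have h3 := hc h1
    have hs : 1 < Fintype.card A := Fintype.one_lt_card
    have h4 : Fintype.card A ^ nvar p < Fintype.card A ^ (a * k + (nvar q + k)) := by
      rw [pow_add, pow_mul]
      calc _ ≤ _ := h2
        _ < _ := Nat.mul_lt_mul_of_pos_right h3 (by positivity)
    have h5 := (Nat.pow_lt_pow_iff_right hs).mp h4
    rw [hk]
    nlinarith

/-- the constants criterion -/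
theorem law_consts [Nontrivial A] {p q : List (ℕ ⊕ A)} (h : Lang p ⊂ Lang q)
    (hc : p.length ≤ q.length ∨ (q.filterMap Sum.getLeft?).length < nvar q + (p.length - q.length)) :
    2 * q.length + nvar p < 2 * p.length + nvar q := by
  have h0 := ne_length h.subset
  rcases hc with hc | hc
  · exact partOne h (by omega)
  · have h1 := consts_le h.subset
    have h2 := length_split q
    omega

/-- short patterns, with a weight `a` -/
theorem law_short [Fintype A] [Nontrivial A] {p q : List (ℕ ⊕ A)} {a n : ℕ}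
    (h : Lang p ⊂ Lang q) (ha : 1 ≤ a) (hn : (n - 3) * (n - 4) < 2 * (Fintype.card A ^ a) ^ 2)
    (hp : p.length ≤ n) :
    (a + 1) * q.length + nvar p < (a + 1) * p.length + nvar q := by
  have h0 := ne_length h.subset
  by_cases hc : p.length ≤ q.length ∨
      (q.filterMap Sum.getLeft?).length < nvar q + (p.length - q.length)
  · have h1 := law_consts h hc
    rw [h0] at h1 ⊢
    nlinarith
  · push Not at hc
    obtain ⟨h1, h2⟩ := hc
    refine law_count h ha h0 fun h3 => ?_
    have hs : 1 < Fintype.card A := Fintype.one_lt_card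
    have hS : 2 ≤ Fintype.card A ^ a :=
      le_trans hs (Nat.le_self_pow (by omega) _)
    refine num_short hS hn _ _ h3 ?_
    have h4 : (q.filterMap Sum.getLeft?).length ≤ q.length := List.length_filterMap_le _ _
    omega

theorem law_few [Fintype A] [Nontrivial A] {p q : List (ℕ ⊕ A)} (h : Lang p ⊂ Lang q)
    (hq : nvar q * (nvar q + 1) < 2 * Fintype.card A ^ 2) :
    2 * q.length + nvar p < 2 * p.length + nvar q := by
  refine law_count (a := 1) h le_rfl (ne_length h.subset) fun h1 => ?_
  rw [pow_one]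
  exact num_few Fintype.one_lt_card hq _ h1

theorem law_long [Fintype A] [Nontrivial A] {p q : List (ℕ ⊕ A)} (h : Lang p ⊂ Lang q)
    (hq : q.length + 4 * nvar q ≤ p.length) :
    2 * q.length + nvar p < 2 * p.length + nvar q := by
  refine law_count (a := 1) h le_rfl (ne_length h.subset) fun h1 => ?_
  rw [pow_one]
  refine lt_of_lt_of_le (num_long (by omega) (by omega)) (Nat.pow_le_pow_left ?_ _)
  exact Fintype.one_lt_card

end Pool.Agent.H344R3.PD
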