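import Mathlib
import Pool.Agent.H344R3.PD.Law

namespace Pool.Agent.H344R3.PD

open Pool.Agent.PatDepth

/-- There are non-empty patterns `c 0, ..., c n` with
`L(x₁) = L(c 0) ⊋ L(c 1) ⊋ ... ⊋ L(c n) = L(p)`. -/
def HasChain {A : Type} (p : List (ℕ ⊕ A)) (n : ℕ) : Prop :=
  ∃ c : ℕ → List (ℕ ⊕ A), (∀ i ≤ n, c i ≠ []) ∧ Lang (c 0) = Lang [Sum.inl 1] ∧
    Lang (c n) = Lang p ∧ ∀ i < n, Lang (c (i + 1)) ⊂ Lang (c i)

variable {A : Type}

theorem chain_upper [Fintype A] [Nontrivial A] {p : List (ℕ ⊕ A)} {a n : ℕ} (ha : 1 ≤ a)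
    (hp : (p.length - 3) * (p.length - 4) < 2 * (Fintype.card A ^ a) ^ 2) (h : HasChain p n) :
    n + a + nvar p ≤ (a + 1) * p.length := by
  obtain ⟨c, _, hc0, hcn, hstep⟩ := h
  have hsub : ∀ d i, i + d = n → Lang p ⊆ Lang (c i) := by
    intro d
    induction d with
    | zero =>
      intro i hi
      have : i = n := by omega
      rw [this, hcn]
    | succ d ih =>
      intro i hi
      exact (ih (i + 1) (by omega)).trans (hstep i (by omega)).subset
  have key : ∀ i ≤ n, i + a + nvar (c i) ≤ (a + 1) * (c i).length := by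
    intro i
    induction i with
    | zero =>
      intro _
      obtain ⟨h1, h2⟩ := lang_eq_invariant hc0
      have h3 : nvar ([Sum.inl 1] : List (ℕ ⊕ A)) = 1 := by simp [nvar]
      rw [h1, h2, h3]
      simp
    | succ i ih =>
      intro hi
      have h1 := hstep i (by omega)
      have h2 := ih (by omega)
      have h3 : (c (i + 1)).length ≤ p.length :=
        length_le_of_subset (hsub (n - (i + 1)) (i + 1) (by omega))
      have h4 := law_short (a := a) h1 ha hp h3
      omega
  obtain ⟨h1, h2⟩ := lang_eq_invariant hcn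
  have := key n le_rfl
  rw [h1, h2] at this
  exact this

theorem chain_exact [Fintype A] [Nontrivial A] {p : List (ℕ ⊕ A)} (h0 : p ≠ [])
    (hp : (p.length - 3) * (p.length - 4) < 2 * Fintype.card A ^ 2) :
    IsGreatest {n | HasChain p n} (2 * p.length - nvar p - 1) := by
  constructor
  · obtain ⟨c, h1, h2, h3, h4⟩ := (chain_greatest h0).1
    exact ⟨c, h1, h2, h3, fun i hi => (h4 i hi).1⟩
  · intro n hn
    have := chain_upper (a := 1) le_rfl (by rw [pow_one]; exact hp) hn
    omega

theorem chain_log [Fintype A] [Nontrivial A] {p : List (ℕ ⊕ A)} (h0 : p ≠ []) {n : ℕ}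
    (h : HasChain p n) :
    n + nvar p ≤ (Nat.clog (Fintype.card A) p.length + 1) * (p.length - 1) + 1 := by
  have hs : 1 < Fintype.card A := Fintype.one_lt_card
  have hpos : 1 ≤ p.length := List.length_pos_iff.mpr h0
  obtain ⟨m, hm⟩ : ∃ m, p.length = m + 1 := ⟨p.length - 1, by omega⟩
  rcases Nat.eq_zero_or_pos m with rfl | hm0
  · have h1 := chain_upper (a := 1) le_rfl (by rw [hm]; positivity) h
    rw [hm] at h1 ⊢
    simp only [zero_add, Nat.sub_self, mul_zero]
    omega
  · set a := Nat.clog (Fintype.card A) p.length with ha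
    have ha1 : 1 ≤ a := Nat.clog_pos hs (by omega)
    have h1 : p.length ≤ Fintype.card A ^ a := Nat.le_pow_clog hs _
    have h2 : (p.length - 3) * (p.length - 4) < 2 * (Fintype.card A ^ a) ^ 2 := by
      calc (p.length - 3) * (p.length - 4)
          ≤ (Fintype.card A ^ a) * (Fintype.card A ^ a) :=
            Nat.mul_le_mul (by omega) (by omega)
        _ < 2 * (Fintype.card A ^ a) ^ 2 := by
            have : 0 < (Fintype.card A ^ a) ^ 2 := by positivity
            rw [← sq]; omega
    have h3 := chain_upper ha1 h2 h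
    have h4 : (a + 1) * p.length = (a + 1) * (p.length - 1) + (a + 1) := by
      rw [hm, Nat.add_sub_cancel]; ring
    omega

end Pool.Agent.H344R3.PD
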